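import Mathlib

open Finset

namespace Pool.Agent.Results.MP_52931c_nt.Counter

lemma build (K : ℕ) (r : ℕ) (hr : r + 2 ≤ K) : ∃ B : Finset ℕ,
    B.card * 8 ^ r * 2 ^ 2 ^ (K - r) = 2 ^ 2 ^ K ∧
    (∀ b ∈ B, 2 * b < 2 ^ (2 ^ K - 2 ^ (K - r))) ∧
    ∀ s, K - r < s → s ≤ K → ∀ b ∈ B,
      2 * (b % (3 * 2 ^ (2 ^ K - 2 ^ s))) < 2 ^ (2 ^ K - 2 ^ s) := by
  induction r with
  | zero => exact ⟨{0}, by simp, by simp, fun s h1 h2 => by omega⟩
  | succ r ih =>
    obtain ⟨B, h1, h2, h3⟩ := ih (by omega)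
    obtain ⟨u, hu⟩ : ∃ u, K - r = u + 3 := ⟨K - r - 3, by omega⟩
    have hu' : K - (r + 1) = u + 2 := by omega
    rw [hu] at h1 h2 h3
    rw [hu']
    have p1 : 2 ^ (u + 3) ≤ 2 ^ K := Nat.pow_le_pow_right (by norm_num) (by omega)
    have p2 : 2 ^ (u + 3) = 2 * 2 ^ (u + 2) := by ring
    have p3 : 4 ≤ 2 ^ (u + 2) := by
      have := Nat.one_le_two_pow (n := u)
      rw [pow_add]; omega
    set R := 2 ^ (2 ^ K - 2 ^ (u + 3)) with hR
    set C := 2 ^ (2 ^ (u + 2) - 3) with hC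
    have R0 : 0 < R := by positivity
    have e1 : 2 ^ (2 ^ K - 2 ^ (u + 2)) = 8 * R * C := by
      rw [hR, hC, show (8 : ℕ) = 2 ^ 3 by norm_num, ← pow_add, ← pow_add]
      congr 1; omega
    have e2 : 2 ^ 2 ^ (u + 3) = 8 * C * 2 ^ 2 ^ (u + 2) := by
      rw [hC, show (8 : ℕ) = 2 ^ 3 by norm_num, ← pow_add, ← pow_add]
      congr 1; omega
    refine ⟨(range C ×ˢ B).image (fun x => 3 * R * x.1 + x.2), ?_, ?_, ?_⟩
    · rw [card_image_of_injOn, card_product, card_range, ← h1, e2]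
      · ring
      · rintro ⟨c, b⟩ hx ⟨c', b'⟩ hy hxy
        simp only [coe_product, Set.mem_prod, mem_coe] at hx hy hxy
        have l1 := h2 b hx.2
        have l2 := h2 b' hy.2
        have m1 : (3 * R * c + b) % (3 * R) = b := by
          rw [Nat.mul_add_mod]; exact Nat.mod_eq_of_lt (by omega)
        have m2 : (3 * R * c' + b') % (3 * R) = b' := by
          rw [Nat.mul_add_mod]; exact Nat.mod_eq_of_lt (by omega)
        have eb : b = b' := by rw [← m1, ← m2, hxy]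
        subst eb
        have : c = c' := Nat.eq_of_mul_eq_mul_left (show 0 < 3 * R by omega) (by omega)
        rw [this]
    · intro x hx
      obtain ⟨⟨c, b⟩, hy, rfl⟩ := mem_image.1 hx
      simp only [mem_product, mem_range] at hy
      have l1 := h2 b hy.2
      rw [e1]
      have : R * (c + 1) ≤ R * C := Nat.mul_le_mul_left _ hy.1
      simp only
      nlinarith
    · intro s s1 s2 x hx
      obtain ⟨⟨c, b⟩, hy, rfl⟩ := mem_image.1 hx
      simp only [mem_product, mem_range] at hy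
      simp only
      rcases (show s = u + 3 ∨ u + 3 < s by omega) with rfl | hs
      · rw [← hR, Nat.mul_add_mod]
        have l1 := h2 b hy.2
        rw [Nat.mod_eq_of_lt (by omega)]; exact l1
      · have : 2 ^ (u + 3) ≤ 2 ^ s := Nat.pow_le_pow_right (by norm_num) hs.le
        obtain ⟨q, hq⟩ : 2 ^ (2 ^ K - 2 ^ s) ∣ R := pow_dvd_pow 2 (by omega)
        rw [hq, show 3 * (2 ^ (2 ^ K - 2 ^ s) * q) * c = 3 * 2 ^ (2 ^ K - 2 ^ s) * (q * c) by ring,
          Nat.mul_add_mod]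
        exact h3 s hs s2 b hy.2

lemma mod3 (e : ℕ) : 2 ^ e % 3 = 1 ∨ 2 ^ e % 3 = 2 := by
  induction e with
  | zero => simp
  | succ e ih => rw [pow_succ]; omega

lemma sep (R D w x y : ℕ) (hD : D % 3 = 1 ∨ D % 3 = 2) (hw : 4 * w < R)
    (hx : 2 * (x % (3 * R)) < R) (hy : 2 * (y % (3 * R)) < R)
    (h1 : x + R * D ≤ y + w) (h2 : y ≤ x + R * D + w) : False := by
  have ex := Nat.div_add_mod x (3 * R)
  have ey := Nat.div_add_mod y (3 * R)
  have eD := Nat.div_add_mod D 3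
  set a := x / (3 * R)
  set b := y / (3 * R)
  set c := D / 3
  set u := x % (3 * R)
  set v := y % (3 * R)
  rcases (show b ≤ a + c ∨ a + c + 1 ≤ b by omega) with h | h
  · have := Nat.mul_le_mul_left (3 * R) h
    rcases hD with hD | hD <;> rw [hD] at eD <;> nlinarith
  · have := Nat.mul_le_mul_left (3 * R) h
    rcases hD with hD | hD <;> rw [hD] at eD <;> nlinarith

theorem result (t : ℕ) (ht : 3 ≤ t) (n₀ : ℕ) : ∃ n : ℕ, n₀ ≤ n ∧ 2 ≤ n ∧ ∃ A : Finset ℕ,
    A ⊆ Finset.Icc 1 n ∧ 1 / (Real.log n) ^ 3 ≤ (A.card : ℝ) / n ∧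
    ∀ j w : ℕ, (w : ℝ) / 2 ^ j < 2 ^ j / n →
      ¬ ∃ b : ℕ, ∀ i : ℕ, 1 ≤ i → i ≤ t - 1 →
        ∃ a ∈ A, b + i * 2 ^ j ≤ a ∧ a ≤ b + i * 2 ^ j + w := by
  set K := n₀ + 3 with hK
  obtain ⟨B, h1, h2, h3⟩ := build K (K - 2) (by omega)
  have e : K - (K - 2) = 2 := by omega
  rw [e] at h1 h2 h3
  have m8 : 8 ≤ 2 ^ K := by
    have := Nat.one_le_two_pow (n := n₀)
    rw [hK, pow_add]; omega
  set m := 2 ^ K with hm
  have l1 : K < m := Nat.lt_two_pow_self
  have l2 : m < 2 ^ m := Nat.lt_two_pow_self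
  have e16 : 2 ^ m = 16 * 2 ^ (m - 2 ^ 2) := by
    rw [show (16 : ℕ) = 2 ^ 4 by norm_num, ← pow_add]; congr 1; omega
  refine ⟨2 ^ m, by omega, by omega, B.image (· + 1), ?_, ?_, ?_⟩
  · intro x hx
    obtain ⟨b, hb, rfl⟩ := mem_image.1 hx
    have := h2 b hb
    simp only [mem_Icc]; omega
  · rw [card_image_of_injective _ (add_left_injective 1)]
    have c1 : (B.card : ℝ) * (m : ℝ) ^ 3 = 4 * 2 ^ m := by
      have : B.card * m ^ 3 = 4 * 2 ^ m := by
        rw [← h1, hm, ← pow_mul, show K * 3 = 3 * (K - 2) + 6 by omega, pow_add, pow_mul]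
        ring
      exact_mod_cast this
    have m0 : (0 : ℝ) < m := by have : 0 < m := by omega
                                exact_mod_cast this
    push_cast
    rw [Real.log_pow, mul_pow]
    have l := Real.log_two_gt_d9
    have l3 : (1 : ℝ) ≤ 4 * Real.log 2 ^ 3 := by
      have := pow_le_pow_left₀ (by norm_num) l.le 3
      norm_num at this ⊢; linarith
    rw [div_le_div_iff₀ (by positivity) (by positivity), ← mul_assoc, c1]
    have : (0 : ℝ) < 2 ^ m := by positivity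
    nlinarith
  · rintro j w hw ⟨b, hb⟩
    obtain ⟨x', hx', x1, x2⟩ := hb 1 le_rfl (by omega)
    obtain ⟨y', hy', y1, y2⟩ := hb 2 (by omega) (by omega)
    obtain ⟨x, hx, rfl⟩ := mem_image.1 hx'
    obtain ⟨y, hy, rfl⟩ := mem_image.1 hy'
    have hw' : w * 2 ^ m < 2 ^ j * 2 ^ j := by
      rw [div_lt_div_iff₀ (by positivity) (by positivity)] at hw
      exact_mod_cast hw
    by_cases hj : m - 2 ^ 2 ≤ j
    · have := Nat.pow_le_pow_right (show 0 < 2 by norm_num) hj
      have := h2 y hy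
      have : 0 < 2 ^ j := by positivity
      omega
    · have ex : ∃ s, m - 2 ^ s ≤ j := ⟨K, by omega⟩
      have s1 := Nat.find_spec ex
      have s2 : Nat.find ex ≤ K := Nat.find_min' ex (by omega)
      have s3 : 2 < Nat.find ex := by
        by_contra hh
        have := Nat.pow_le_pow_right (show 0 < 2 by norm_num) (not_lt.1 hh)
        omega
      have s4 := Nat.find_min ex (show Nat.find ex - 1 < Nat.find ex by omega)
      set s := Nat.find ex
      have s5 : 2 ^ s = 2 * 2 ^ (s - 1) := by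
        rw [← pow_succ']; congr 1; omega
      have s6 : 2 ^ s ≤ m := Nat.pow_le_pow_right (by norm_num) s2
      have hd : 2 ^ j = 2 ^ (m - 2 ^ s) * 2 ^ (j - (m - 2 ^ s)) := by
        rw [← pow_add]; congr 1; omega
      have hw2 : 4 * w < 2 ^ (m - 2 ^ s) := by
        have : 4 * (2 ^ j * 2 ^ j) ≤ 2 ^ (m - 2 ^ s) * 2 ^ m := by
          rw [show (4 : ℕ) = 2 ^ 2 by norm_num, ← pow_add, ← pow_add, ← pow_add]
          exact Nat.pow_le_pow_right (by norm_num) (by omega)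
        apply Nat.lt_of_mul_lt_mul_right (a := 2 ^ m)
        nlinarith
      exact sep _ _ w x y (mod3 (j - (m - 2 ^ s))) hw2 (h3 s s3 s2 x hx) (h3 s s3 s2 y hy)
        (by rw [← hd]; omega) (by rw [← hd]; omega)

end Pool.Agent.Results.MP_52931c_nt.Counter
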